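import Pool.Agent.W831.ECC.Lat

set_option autoImplicit false

namespace Pool.Agent.Results.MP_20b97f_co.DeepInCone

open Pool.Agent.H126R2.CDC (MGraph)

/-- Circuit covers of weightings deep inside the cone of the circuits. Let `G` be a finite graph
with `N` edges and let `p` be a weighting in the lattice of the circuits (even or not) with values
at most `M`. If for some real number `L ≥ 60 sqrt (M log (2N))` the vector `p - L` (the number `L`
subtracted from every value) lies in the cone of the circuits, then `(G, p)` has a circuit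
cover. -/
theorem result (V E : Type) [Fintype V] [DecidableEq V] [Fintype E] [DecidableEq E]
    (G : MGraph V E) (p : E → ℕ) (M : ℕ) (L : ℝ) (hM : ∀ e, p e ≤ M)
    (hL : 60 * Real.sqrt (M * Real.log (2 * Fintype.card E)) ≤ L)
    (hcone : ∃ w : Finset E → ℝ, (∀ C, 0 ≤ w C) ∧ (∀ C, ¬ G.IsCircuit C → w C = 0) ∧
      ∀ e, (p e : ℝ) - L = ∑ C : Finset E, w C * (if e ∈ C then 1 else 0))
    (hlat : (fun e => (p e : ℤ)) ∈ AddSubgroup.closure
      {x : E → ℤ | ∃ C, G.IsCircuit C ∧ x = fun e => if e ∈ C then 1 else 0}) :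
    ∃ F : Multiset (Finset E), (∀ C ∈ F, G.IsCircuit C) ∧
      ∀ e, F.countP (fun C => e ∈ C) = p e :=
  Pool.Agent.W831.ECC.deep G p hlat L M hM hL hcone

end Pool.Agent.Results.MP_20b97f_co.DeepInCone
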