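import Pool.Agent.W831.ECC.Slack

set_option autoImplicit false

namespace Pool.Agent.Results.MP_20b97f_co.SlackInCuts

open Pool.Agent.H126R2.CDC (MGraph)

/-- Circuit covers of weightings with relative slack in all cut inequalities. Let `0 < ε ≤ 1`, let
`G` be a finite graph with `N` edges and let `p` be a weighting in the lattice of the circuits
(even or not) with all values at least `40000 ε⁻² log (2N)`. If for every edge cut `B` with at
least three edges and every edge `e` of `B` the value `p(e)` is at most `1 - ε` times the sum of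
the values of the other edges of `B`, then `(G, p)` has a circuit cover. -/
theorem result (ε : ℝ) (hε : 0 < ε) (hε1 : ε ≤ 1)
    (V E : Type) [Fintype V] [DecidableEq V] [Fintype E] [DecidableEq E]
    (G : MGraph V E) (p : E → ℕ)
    (hlat : (fun e => (p e : ℤ)) ∈ AddSubgroup.closure
      {x : E → ℤ | ∃ C, G.IsCircuit C ∧ x = fun e => if e ∈ C then 1 else 0})
    (hbig : ∀ e, 40000 / ε ^ 2 * Real.log (2 * Fintype.card E) ≤ p e)
    (hcut : ∀ (S : Finset V) (B : Finset E),
      (∀ f, f ∈ B ↔ ∃ a ∈ S, ∃ b ∉ S, G.ends f = s(a, b)) → 3 ≤ B.card →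
      ∀ e ∈ B, (p e : ℝ) ≤ (1 - ε) * ∑ f ∈ B.erase e, (p f : ℝ)) :
    ∃ F : Multiset (Finset E), (∀ C ∈ F, G.IsCircuit C) ∧
      ∀ e, F.countP (fun C => e ∈ C) = p e :=
  Pool.Agent.W831.ECC.slack_cover ε hε hε1 G p hlat hbig hcut

end Pool.Agent.Results.MP_20b97f_co.SlackInCuts
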