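import Pool.Agent.W831.HI.Two

set_option autoImplicit false

/-!
Seymour's even circuit cover conjecture for weightings that are constant on a circuit and constant
off it.
-/

namespace Pool.Agent.Results.MP_20b97f_co.TwoValued

open Finset
open Pool.Agent.H126R2.CDC (MGraph)

/-- Let `C` be a circuit of the finite graph `G` and let `p` be a weighting of the edges of `G` by
positive even integers that is constant on `C` and constant off `C`. Suppose that `C` contains a
vertex of degree three of `G` (for instance, that `G` is cubic), or that no value of `p` is more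
than twice the value on `C`. Then `(G, p)` has a circuit cover if and only if `p` lies in the cone
and in the lattice of the circuits. -/
theorem result {V E : Type} [Fintype V] [DecidableEq V] [Fintype E] [DecidableEq E]
    (G : MGraph V E) (C : Finset E) (hC : G.IsCircuit C) (p : E → ℕ)
    (hev : ∀ e, Even (p e)) (hpos : ∀ e, 0 < p e) (hp : ∀ e f, (e ∈ C ↔ f ∈ C) → p e = p f)
    (h : (∃ v, G.deg univ v = 3 ∧ G.deg C v = 2) ∨ ∀ e ∈ C, ∀ f, p f ≤ 2 * p e) :
    (∃ F : Multiset (Finset E), (∀ D ∈ F, G.IsCircuit D) ∧
        ∀ e, F.countP (fun D => e ∈ D) = p e) ↔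
      (∃ w : Finset E → ℝ, (∀ D, 0 ≤ w D) ∧ (∀ D, ¬ G.IsCircuit D → w D = 0) ∧
        ∀ e, (p e : ℝ) = ∑ D : Finset E, w D * (if e ∈ D then 1 else 0)) ∧
      (fun e => (p e : ℤ)) ∈ AddSubgroup.closure
        {x : E → ℤ | ∃ D, G.IsCircuit D ∧ x = fun e => if e ∈ D then 1 else 0} :=
  Pool.Agent.W831.HI.two_valued_iff G C hC p hev hpos hp h.symm

end Pool.Agent.Results.MP_20b97f_co.TwoValued
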